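import Mathlib

set_option autoImplicit false

namespace Pool.Agent.Results.MP_923311_co.NotPure

open Finset

/-- All permutations of `1, …, k` with `k ≤ n`, in one-line form. -/
def perms (n : ℕ) : List (List ℕ) := (List.range (n + 1)).flatMap fun k => (List.range' 1 k).permutations'

/-- Pattern containment: `π` has a subsequence in the same relative order as `σ`. -/
def Le (σ π : List ℕ) : Prop := ∃ s ∈ π.sublists, s.length = σ.length ∧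
  ∀ i < σ.length, ∀ j < σ.length, σ.getD i 0 < σ.getD j 0 ↔ s.getD i 0 < s.getD j 0

instance (σ π : List ℕ) : Decidable (Le σ π) := by unfold Le; infer_instance

/-- The closed interval `[σ, π]` of the pattern order. -/
def I (σ π : List ℕ) : Finset (List ℕ) := ((perms π.length).filter fun τ => Le σ τ ∧ Le τ π).toFinset

/-- `μ` is `τ ↦ μ(σ, τ)` on the interval `[σ, π]`. -/
def IsMoebius (σ π : List ℕ) (μ : List ℕ → ℤ) : Prop :=
  μ σ = 1 ∧ ∀ τ ∈ (I σ π).erase σ, μ τ = -∑ ρ ∈ (I σ τ).erase τ, μ ρ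

/-- `C` is a maximal chain of `Z`. -/
def MaxChain (Z C : Finset (List ℕ)) : Prop :=
  C ⊆ Z ∧ (∀ a ∈ C, ∀ b ∈ C, Le a b ∨ Le b a) ∧ ∀ z ∈ Z, (∀ a ∈ C, Le a z ∨ Le z a) → z ∈ C

/-- The chains of the open interval whose elements have a value of `μ` in `S` do not form a pure complex. -/
def Impure (S : Set ℤ) [DecidablePred (· ∈ S)] : Prop := ∃ (σ π : List ℕ) (μ : List ℕ → ℤ),
  σ ∈ perms σ.length ∧ π ∈ perms π.length ∧ Le σ π ∧ IsMoebius σ π μ ∧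
    ∃ C D, MaxChain ((((I σ π).erase σ).erase π).filter (μ · ∈ S)) C ∧
      MaxChain ((((I σ π).erase σ).erase π).filter (μ · ∈ S)) D ∧ C.card ≠ D.card

def m (l : List ℕ) : ℤ :=
  if l ∈ [[1], [1, 3, 2], [2, 1, 3], [2, 3, 1], [1, 4, 3, 5, 2], [1, 3, 2, 5, 4]] then 1
  else if l ∈ [[1, 2], [2, 1], [1, 3, 2, 4], [1, 3, 4, 2], [3, 2, 4, 1], [2, 1, 4, 3]] then -1 else 0

theorem e1 : I [1] [1, 4, 3, 5, 2] = {[1], [1, 2], [2, 1], [1, 2, 3], [1, 3, 2], [2, 1, 3], [2, 3, 1],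
    [3, 2, 1], [1, 3, 2, 4], [1, 3, 4, 2], [1, 4, 3, 2], [3, 2, 4, 1], [1, 4, 3, 5, 2]} := by
  decide +kernel

theorem e2 : I [1] [1, 3, 2, 5, 6, 4] = {[1], [1, 2], [2, 1], [1, 2, 3], [1, 3, 2], [2, 1, 3], [2, 3, 1],
    [1, 2, 3, 4], [1, 2, 4, 3], [1, 3, 2, 4], [1, 3, 4, 2], [2, 1, 3, 4], [2, 1, 4, 3], [1, 2, 4, 5, 3],
    [1, 3, 2, 4, 5], [1, 3, 2, 5, 4], [2, 1, 4, 5, 3], [1, 3, 2, 5, 6, 4]} := by
  decide +kernel

theorem result : Impure {z | z = 0} ∧ Impure {z | z ≠ 0} := by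
  refine ⟨⟨[1], [1, 4, 3, 5, 2], m, by decide, by decide +kernel, by decide +kernel, ⟨rfl, ?_⟩,
    {[1, 2, 3]}, {[3, 2, 1], [1, 4, 3, 2]}, ?_, ?_, by decide⟩,
    ⟨[1], [1, 3, 2, 5, 6, 4], m, by decide, by decide +kernel, by decide +kernel, ⟨rfl, ?_⟩,
    {[1, 2], [1, 3, 2], [1, 3, 4, 2]}, {[1, 2], [1, 3, 2], [1, 3, 2, 4], [1, 3, 2, 5, 4]}, ?_, ?_,
    by decide⟩⟩ <;> simp only [e1, e2, MaxChain] <;> decide +kernel

end Pool.Agent.Results.MP_923311_co.NotPure
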